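import Mathlib

set_option autoImplicit false

namespace Pool.Agent.H27Dense

open Finset

/-- In an edge-critical graph which is not 3-colourable, two independent sets `A`, `B` which are
almost completely joined leave at least `|A| - d` further vertices. -/
theorem key {V : Type*} [Fintype V] [DecidableEq V] (G : SimpleGraph V) [DecidableRel G.Adj]
    (A B : Finset V) (hA : ∀ x ∈ A, ∀ y ∈ A, ¬ G.Adj x y)
    (d : ℕ) (hAm : ∀ b ∈ B, (A.filter fun a => ¬ G.Adj b a).card ≤ d)
    (hBm : ∀ a ∈ A, (B.filter fun b => ¬ G.Adj a b).card ≤ d)
    (hAc : 3 * d + 1 < A.card) (hBc : 2 * d + 1 < B.card)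
    (hcol : ¬ G.Colorable 3)
    (hcrit : ∀ e ∈ G.edgeSet, (G.deleteEdges {e}).Colorable 3) :
    A.card ≤ (univ \ (A ∪ B)).card + d := by
  classical
  obtain ⟨b, hb⟩ : B.Nonempty := card_pos.1 (by omega)
  -- private neighbours
  have main : ∀ a ∈ A.filter (fun a => G.Adj b a), ∃ w ∈ univ \ (A ∪ B),
      ∀ a' ∈ A.filter (fun a => G.Adj b a), G.Adj w a' ↔ a' = a := by
    intro a ha
    rw [mem_filter] at ha
    obtain ⟨haA, hba⟩ := ha
    have hab : G.Adj a b := hba.symm
    obtain ⟨φ, hprop⟩ : ∃ φ : V → Fin 3, ∀ x y, G.Adj x y → s(x, y) ≠ s(a, b) → φ x ≠ φ y := by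
      obtain ⟨φ⟩ := hcrit s(a, b) hab
      refine ⟨φ, fun x y hxy hne => ?_⟩
      exact φ.valid (by
        rw [SimpleGraph.deleteEdges_adj]
        exact ⟨hxy, hne⟩)
    -- `a` and `b` have the same colour
    have hsame : φ a = φ b := by
      by_contra hne
      apply hcol
      refine ⟨SimpleGraph.Coloring.mk φ ?_⟩
      intro x y hxy
      by_cases h : s(x, y) = s(a, b)
      · rw [Sym2.eq_iff] at h
        rcases h with ⟨rfl, rfl⟩ | ⟨rfl, rfl⟩
        · exact hne
        · exact fun h => hne h.symm
      · exact hprop x y hxy h
    -- few vertices of `A` have the colour of `a`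
    have hA0 : (A.filter fun x => φ x = φ a).card ≤ d + 1 := by
      have : (A.filter fun x => φ x = φ a) ⊆ insert a (A.filter fun x => ¬ G.Adj b x) := by
        intro x hx
        rw [mem_filter] at hx
        rw [mem_insert, mem_filter]
        by_cases hxa : x = a
        · exact Or.inl hxa
        · right
          refine ⟨hx.1, fun hbx => ?_⟩
          apply hprop b x hbx ?_ (by rw [hx.2, hsame])
          intro h
          rw [Sym2.eq_iff] at h
          rcases h with ⟨h1, h2⟩ | ⟨_, h2⟩
          · rw [h1] at hab
            exact hab.ne rfl
          · exact hxa h2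
      refine (card_le_card this).trans ((card_insert_le _ _).trans ?_)
      have := hAm b hb
      omega
    have hB0 : (B.filter fun x => φ x = φ a).card ≤ d + 1 := by
      have : (B.filter fun x => φ x = φ a) ⊆ insert b (B.filter fun x => ¬ G.Adj a x) := by
        intro x hx
        rw [mem_filter] at hx
        rw [mem_insert, mem_filter]
        by_cases hxb : x = b
        · exact Or.inl hxb
        · right
          refine ⟨hx.1, fun hax => ?_⟩
          apply hprop a x hax ?_ (by rw [hx.2])
          intro h
          rw [Sym2.eq_iff] at h
          rcases h with ⟨_, h2⟩ | ⟨h1, h2⟩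
          · exact hxb h2
          · rw [← h1] at hab
            exact hab.ne rfl
      refine (card_le_card this).trans ((card_insert_le _ _).trans ?_)
      have := hBm a haA
      omega
    -- a colour that is used often in `A` is not used in `B` and conversely
    have hAB : ∀ c, c ≠ φ a → d < (A.filter fun x => φ x = c).card → ∀ y ∈ B, φ y ≠ c := by
      intro c hc hcard y hy hyc
      have : (A.filter fun x => φ x = c) ⊆ A.filter fun x => ¬ G.Adj y x := by
        intro x hx
        rw [mem_filter] at hx ⊢
        refine ⟨hx.1, fun hyx => ?_⟩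
        apply hprop y x hyx ?_ (by rw [hx.2, hyc])
        intro h
        rw [Sym2.eq_iff] at h
        rcases h with ⟨h1, h2⟩ | ⟨h1, h2⟩
        · exact hc (by rw [← h1, hyc])
        · exact hc (by rw [← h2, hx.2])
      have := card_le_card this
      have := hAm y hy
      omega
    have hBA : ∀ c, c ≠ φ a → d < (B.filter fun x => φ x = c).card → ∀ y ∈ A, φ y ≠ c := by
      intro c hc hcard y hy hyc
      have : (B.filter fun x => φ x = c) ⊆ B.filter fun x => ¬ G.Adj y x := by
        intro x hx
        rw [mem_filter] at hx ⊢
        refine ⟨hx.1, fun hyx => ?_⟩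
        apply hprop y x hyx ?_ (by rw [hx.2, hyc])
        intro h
        rw [Sym2.eq_iff] at h
        rcases h with ⟨h1, h2⟩ | ⟨h1, h2⟩
        · exact hc (by rw [← h1, hyc])
        · exact hc (by rw [← h2, hx.2])
      have := card_le_card this
      have := hBm y hy
      omega
    -- the two other colours
    obtain ⟨c1, c2, h10, h20, h12, hall⟩ : ∃ c1 c2 : Fin 3, c1 ≠ φ a ∧ c2 ≠ φ a ∧ c1 ≠ c2 ∧
        ∀ c, c = φ a ∨ c = c1 ∨ c = c2 := by
      generalize φ a = c0
      revert c0
      decide
    -- the claim for a frequent colour `c1` of `A`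
    have claim : ∀ c1 c2 : Fin 3, c1 ≠ φ a → c2 ≠ φ a → c1 ≠ c2 →
        (∀ c, c = φ a ∨ c = c1 ∨ c = c2) → d < (A.filter fun x => φ x = c1).card →
        ∃ w ∈ univ \ (A ∪ B), ∀ a' ∈ A.filter (fun a => G.Adj b a), G.Adj w a' ↔ a' = a := by
      intro c1 c2 h10 h20 h12 hall hcard
      have hBc1 := hAB c1 h10 hcard
      have hBcard : d < (B.filter fun x => φ x = c2).card := by
        have hsplit : B ⊆ (B.filter fun x => φ x = φ a) ∪ (B.filter fun x => φ x = c2) := by
          intro x hx
          rw [mem_union, mem_filter, mem_filter]
          rcases hall (φ x) with h | h | h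
          · exact Or.inl ⟨hx, h⟩
          · exact absurd h (hBc1 x hx)
          · exact Or.inr ⟨hx, h⟩
        have h1 := (card_le_card hsplit).trans (card_union_le _ _)
        omega
      have hAc2 := hBA c2 h20 hBcard
      -- recolour `a` with `c1`
      by_contra hcon
      apply hcol
      have hbadcol : ∀ w, G.Adj a w → w ≠ b → φ w ≠ c1 := by
        intro w haw hwb hwc
        by_cases hwA : w ∈ A
        · exact hA a haA w hwA haw
        by_cases hwB : w ∈ B
        · exact hBc1 w hwB hwc
        apply hcon
        refine ⟨w, by
          rw [mem_sdiff, mem_union]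
          exact ⟨mem_univ _, fun h => h.elim hwA hwB⟩, ?_⟩
        intro a' ha'
        rw [mem_filter] at ha'
        constructor
        · intro hwa'
          by_contra haa'
          -- the colour of `a'`
          have h1 : φ a' ≠ c1 := by
            rw [← hwc]
            intro h
            refine hprop w a' hwa' ?_ h.symm
            intro h'
            rw [Sym2.eq_iff] at h'
            rcases h' with ⟨h2, _⟩ | ⟨h2, _⟩
            · rw [h2] at hwA
              exact hwA haA
            · exact hwb h2
          have h2 : φ a' ≠ c2 := hAc2 a' ha'.1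
          have h3 : φ a' = φ a := by
            rcases hall (φ a') with h | h | h
            · exact h
            · exact absurd h h1
            · exact absurd h h2
          apply hprop b a' ha'.2 ?_ (by rw [h3, hsame])
          intro h'
          rw [Sym2.eq_iff] at h'
          rcases h' with ⟨h4, _⟩ | ⟨_, h4⟩
          · rw [h4] at hab
            exact hab.ne rfl
          · exact haa' h4
        · rintro rfl
          exact haw.symm
      refine ⟨SimpleGraph.Coloring.mk (fun x => if x = a then c1 else φ x) ?_⟩
      intro x y hxy
      by_cases hx : x = a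
      · by_cases hy : y = a
        · rw [hx, hy] at hxy
          exact absurd rfl hxy.ne
        · simp only [hx, hy, if_true, if_false]
          rw [hx] at hxy
          by_cases hyb : y = b
          · rw [hyb, ← hsame]
            exact h10
          · exact (hbadcol y hxy hyb).symm
      · by_cases hy : y = a
        · simp only [hx, hy, if_true, if_false]
          rw [hy] at hxy
          by_cases hxb : x = b
          · rw [hxb, ← hsame]
            exact h10.symm
          · exact hbadcol x hxy.symm hxb
        · simp only [hx, hy, if_false]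
          apply hprop x y hxy
          intro h
          rw [Sym2.eq_iff] at h
          rcases h with ⟨h1, _⟩ | ⟨_, h1⟩
          · exact hx h1
          · exact hy h1
    -- one of the two colours is frequent in `A`
    have hsplit : A ⊆ (A.filter fun x => φ x = φ a) ∪ ((A.filter fun x => φ x = c1) ∪
        (A.filter fun x => φ x = c2)) := by
      intro x hx
      rw [mem_union, mem_union, mem_filter, mem_filter, mem_filter]
      rcases hall (φ x) with h | h | h
      · exact Or.inl ⟨hx, h⟩
      · exact Or.inr (Or.inl ⟨hx, h⟩)
      · exact Or.inr (Or.inr ⟨hx, h⟩)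
    have h1 := (card_le_card hsplit).trans (card_union_le _ _)
    have h2 := card_union_le (A.filter fun x => φ x = c1) (A.filter fun x => φ x = c2)
    by_cases h3 : d < (A.filter fun x => φ x = c1).card
    · exact claim c1 c2 h10 h20 h12 hall h3
    · exact claim c2 c1 h20 h10 h12.symm (fun c => by
        rcases hall c with h | h | h
        · exact Or.inl h
        · exact Or.inr (Or.inr h)
        · exact Or.inr (Or.inl h)) (by omega)
  choose! f hf hf' using main
  have hinj : Set.InjOn f (A.filter (fun a => G.Adj b a) : Finset V) := by
    intro x hx y hy hxy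
    have h1 := (hf' x hx x hx).2 rfl
    rw [hxy] at h1
    exact (hf' y hy x hx).1 h1
  have h1 : (A.filter (fun a => G.Adj b a)).card ≤ (univ \ (A ∪ B)).card :=
    card_le_card_of_injOn f (fun a ha => hf a ha) hinj
  have h2 := hAm b hb
  have h3 : (A.filter (fun a => G.Adj b a)).card + (A.filter fun a => ¬ G.Adj b a).card = A.card :=
    card_filter_add_card_filter_not _
  omega

end Pool.Agent.H27Dense
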