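import Pool.Agent.H27Dense.Struct

/-!
Not a hand-in: the edge bound for dense triangle-free 4-critical graphs. The bound of Luo, Ma and Yang
(On the maximum number of edges in k-critical graphs, 2023) for all 4-critical graphs contains it.
-/

set_option autoImplicit false

namespace Pool.Agent.H27Dense

/-- every triangle-free 4-critical graph with at least 1000 vertices has at most (1/4 - 1/100000) n^2 edges -/
theorem quarter_bound :
    ∃ c : ℝ, c < 1 / 4 ∧ ∃ N : ℕ, ∀ n : ℕ, N ≤ n → ∀ G : SimpleGraph (Fin n),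
      G.CliqueFree 3 → G.chromaticNumber = 4 → (∀ v : Fin n, ∃ w : Fin n, G.Adj v w) →
      (∀ e ∈ G.edgeSet, (G.deleteEdges {e}).Colorable 3) →
      (G.edgeSet.ncard : ℝ) ≤ c * (n : ℝ) ^ 2 := by
  refine ⟨1 / 4 - 1 / 100000, by norm_num, 1000, ?_⟩
  intro n hn G h3 hchi _ hcrit
  classical
  have hcol : ¬ G.Colorable 3 := by
    intro h
    have h4 := SimpleGraph.chromaticNumber_le_iff_colorable.2 h
    rw [hchi] at h4
    norm_num at h4
  have h := Pool.Agent.H27Dense.main G (by simpa using hn) h3 hcol hcrit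
  rw [Fintype.card_fin] at h
  rw [← SimpleGraph.coe_edgeFinset, Set.ncard_coe_finset]
  exact h

end Pool.Agent.H27Dense
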