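import Pool.Agent.H27Dense.Key

set_option autoImplicit false

namespace Pool.Agent.H27Dense

open Finset

/-- There is an edge whose ends have large degree sum. -/
theorem exists_edge {V : Type*} [Fintype V] (G : SimpleGraph V) [DecidableRel G.Adj] (T : ℝ)
    (h0 : 0 < (G.edgeFinset.card : ℝ))
    (hT : T * Fintype.card V < 4 * G.edgeFinset.card) :
    ∃ x y, G.Adj x y ∧ T < G.degree x + G.degree y := by
  by_contra hcon
  push Not at hcon
  have hn : 0 < (Fintype.card V : ℝ) := by
    rcases isEmpty_or_nonempty V with h | h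
    · exfalso
      have : G.edgeFinset = ∅ := by
        rw [Finset.eq_empty_iff_forall_notMem]
        intro e
        induction e using Sym2.ind with
        | _ x y => exact (h.false x).elim
      rw [this] at h0
      simp at h0
    · exact_mod_cast Fintype.card_pos
  have hsum : ∑ x, (G.degree x : ℝ) = 2 * G.edgeFinset.card := by
    exact_mod_cast G.sum_degrees_eq_twice_card_edges
  have h1 : ∑ x, ∑ y ∈ G.neighborFinset x, ((G.degree x : ℝ) + G.degree y) ≤
      ∑ x, ∑ y ∈ G.neighborFinset x, T := by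
    refine sum_le_sum fun x _ => sum_le_sum fun y hy => ?_
    exact hcon x y ((G.mem_neighborFinset x y).1 hy)
  have h2 : ∑ x, ∑ y ∈ G.neighborFinset x, T = T * (2 * G.edgeFinset.card) := by
    rw [← hsum, mul_sum]
    refine sum_congr rfl fun x _ => ?_
    rw [sum_const, nsmul_eq_mul, G.card_neighborFinset_eq_degree]
    ring
  have h3 : ∑ x, ∑ y ∈ G.neighborFinset x, ((G.degree x : ℝ) + G.degree y) =
      2 * ∑ x, (G.degree x : ℝ) ^ 2 := by
    have h4 : ∑ x, ∑ y ∈ G.neighborFinset x, (G.degree x : ℝ) =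
        ∑ x, (G.degree x : ℝ) ^ 2 := by
      refine sum_congr rfl fun x _ => ?_
      rw [sum_const, nsmul_eq_mul, G.card_neighborFinset_eq_degree]
      ring
    have h5 : ∑ x, ∑ y ∈ G.neighborFinset x, (G.degree y : ℝ) =
        ∑ y, ∑ x ∈ G.neighborFinset y, (G.degree y : ℝ) := by
      refine sum_comm' ?_
      intro x y
      simp only [mem_univ, SimpleGraph.mem_neighborFinset, true_and, and_true]
      exact ⟨fun h => h.symm, fun h => h.symm⟩
    simp only [sum_add_distrib]
    rw [h5, h4]
    ring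
  have h6 : (∑ x, (G.degree x : ℝ)) ^ 2 ≤ Fintype.card V * ∑ x, (G.degree x : ℝ) ^ 2 := by
    have := sq_sum_le_card_mul_sum_sq (s := (univ : Finset V)) (f := fun x => (G.degree x : ℝ))
    rwa [card_univ] at this
  rw [hsum] at h6
  rw [h2, h3] at h1
  have h7 : (Fintype.card V : ℝ) * (2 * ∑ x, (G.degree x : ℝ) ^ 2) ≤
      Fintype.card V * (T * (2 * G.edgeFinset.card)) := by
    exact mul_le_mul_of_nonneg_left h1 hn.le
  nlinarith

theorem main {V : Type*} [Fintype V] [DecidableEq V] (G : SimpleGraph V) [DecidableRel G.Adj] (hn : 1000 ≤ Fintype.card V)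
    (h3 : G.CliqueFree 3) (hcol : ¬ G.Colorable 3)
    (hcrit : ∀ e ∈ G.edgeSet, (G.deleteEdges {e}).Colorable 3) :
    (G.edgeFinset.card : ℝ) ≤ (1 / 4 - 1 / 100000) * (Fintype.card V : ℝ) ^ 2 := by
  by_contra hlt
  push Not at hlt
  set n : ℕ := Fintype.card V with hndef
  set e : ℕ := G.edgeFinset.card with hedef
  have hn' : (1000 : ℝ) ≤ n := by exact_mod_cast hn
  have he0 : 0 < (e : ℝ) := lt_of_le_of_lt (by positivity) hlt
  obtain ⟨x, y, hxy, hT⟩ := exists_edge G ((1 - 4 / 100000) * n) he0 (by nlinarith)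
  have htri : ∀ a b c, G.Adj a b → G.Adj b c → G.Adj a c → False := by
    intro a b c hab hbc hac
    exact h3 {a, b, c} (SimpleGraph.is3Clique_triple_iff.2 ⟨hab, hac, hbc⟩)
  set A0 := G.neighborFinset y with hA0
  set B0 := G.neighborFinset x with hB0
  set W0 := univ \ (A0 ∪ B0) with hW0
  have hdisj : Disjoint A0 B0 := by
    rw [disjoint_left]
    intro z hz hz'
    rw [hA0, SimpleGraph.mem_neighborFinset] at hz
    rw [hB0, SimpleGraph.mem_neighborFinset] at hz'
    exact htri x y z hxy hz hz'
  have hAi : ∀ a ∈ A0, ∀ b ∈ A0, ¬ G.Adj a b := by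
    intro a ha b hb hab
    rw [hA0, SimpleGraph.mem_neighborFinset] at ha hb
    exact htri y a b ha hab hb
  have hBi : ∀ a ∈ B0, ∀ b ∈ B0, ¬ G.Adj a b := by
    intro a ha b hb hab
    rw [hB0, SimpleGraph.mem_neighborFinset] at ha hb
    exact htri x a b ha hab hb
  have hA0c : A0.card = G.degree y := G.card_neighborFinset_eq_degree y
  have hB0c : B0.card = G.degree x := G.card_neighborFinset_eq_degree x
  have hcards : (A0.card : ℝ) + B0.card + W0.card = n := by
    have h1 : (A0 ∪ B0).card + W0.card = n := by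
      rw [hW0, card_sdiff_of_subset (subset_univ _), card_univ]
      have := card_le_univ (A0 ∪ B0)
      omega
    rw [card_union_of_disjoint hdisj] at h1
    exact_mod_cast h1
  have hW0c : (W0.card : ℝ) ≤ 4 / 100000 * n := by
    rw [hA0c, hB0c] at hcards
    linarith
  have hA0n : (A0.card : ℝ) ≤ n := by
    have : (0 : ℝ) ≤ B0.card := by positivity
    have : (0 : ℝ) ≤ W0.card := by positivity
    linarith
  have hB0n : (B0.card : ℝ) ≤ n := by
    have : (0 : ℝ) ≤ A0.card := by positivity
    have : (0 : ℝ) ≤ W0.card := by positivity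
    linarith
  -- the number of edges between
  set m : ℕ := ∑ a ∈ A0, (B0.filter fun b => G.Adj a b).card with hm
  have hm' : m = ∑ b ∈ B0, (A0.filter fun a => G.Adj b a).card := by
    rw [hm]
    simp only [card_filter]
    rw [sum_comm]
    refine sum_congr rfl fun b _ => sum_congr rfl fun a _ => ?_
    simp only [G.adj_comm a b]
  have hdA : ∀ a ∈ A0, G.degree a ≤ (B0.filter fun b => G.Adj a b).card + W0.card := by
    intro a ha
    rw [← G.card_neighborFinset_eq_degree a]
    refine (card_le_card (t := (B0.filter fun b => G.Adj a b) ∪ W0) ?_).trans (card_union_le _ _)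
    intro z hz
    rw [SimpleGraph.mem_neighborFinset] at hz
    rw [mem_union, mem_filter, hW0, mem_sdiff, mem_union]
    by_cases hzB : z ∈ B0
    · exact Or.inl ⟨hzB, hz⟩
    · right
      refine ⟨mem_univ _, ?_⟩
      rintro (h | h)
      · exact hAi a ha z h hz
      · exact hzB h
  have hdB : ∀ a ∈ B0, G.degree a ≤ (A0.filter fun b => G.Adj a b).card + W0.card := by
    intro a ha
    rw [← G.card_neighborFinset_eq_degree a]
    refine (card_le_card (t := (A0.filter fun b => G.Adj a b) ∪ W0) ?_).trans (card_union_le _ _)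
    intro z hz
    rw [SimpleGraph.mem_neighborFinset] at hz
    rw [mem_union, mem_filter, hW0, mem_sdiff, mem_union]
    by_cases hzB : z ∈ A0
    · exact Or.inl ⟨hzB, hz⟩
    · right
      refine ⟨mem_univ _, ?_⟩
      rintro (h | h)
      · exact hzB h
      · exact hBi a ha z h hz
  have h2e : 2 * e = ∑ v, G.degree v := by
    rw [G.sum_degrees_eq_twice_card_edges]
  have hsplit : ∑ v, G.degree v = ∑ v ∈ A0, G.degree v + ∑ v ∈ B0, G.degree v +
      ∑ v ∈ W0, G.degree v := by
    rw [← sum_union hdisj, hW0, add_comm, sum_sdiff (subset_univ _)]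
  have hSA : ∑ v ∈ A0, G.degree v ≤ m + A0.card * W0.card := by
    refine (sum_le_sum hdA).trans ?_
    rw [sum_add_distrib, sum_const, smul_eq_mul]
  have hSB : ∑ v ∈ B0, G.degree v ≤ m + B0.card * W0.card := by
    refine (sum_le_sum hdB).trans ?_
    rw [sum_add_distrib, sum_const, smul_eq_mul, ← hm']
  have hSW : ∑ v ∈ W0, G.degree v ≤ W0.card * n := by
    refine (sum_le_card_nsmul _ _ n fun v _ => ?_).trans (by rw [smul_eq_mul])
    exact (G.degree_lt_card_verts v).le
  have hmlow : (e : ℝ) ≤ m + n * W0.card := by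
    have h1 : 2 * e ≤ (m + A0.card * W0.card) + (m + B0.card * W0.card) + W0.card * n := by
      rw [h2e, hsplit]
      omega
    have h2 : (2 * e : ℝ) ≤ (m + A0.card * W0.card) + (m + B0.card * W0.card) + W0.card * n := by
      exact_mod_cast h1
    have h3 : (0 : ℝ) ≤ W0.card := by positivity
    nlinarith
  have hmlow' : (1 / 4 - 5 / 100000) * (n : ℝ) ^ 2 ≤ m := by
    have : (n : ℝ) * W0.card ≤ 4 / 100000 * (n : ℝ) ^ 2 := by nlinarith
    linarith
  -- the missing edges
  have hAB4 : (A0.card : ℝ) * B0.card ≤ 1 / 4 * (n : ℝ) ^ 2 := by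
    have h3 : (0 : ℝ) ≤ W0.card := by positivity
    have h4 : (A0.card : ℝ) + B0.card ≤ n := by linarith
    have h5 : (0 : ℝ) ≤ (A0.card : ℝ) + B0.card := by positivity
    have h6 : ((A0.card : ℝ) + B0.card) ^ 2 ≤ (n : ℝ) ^ 2 := by
      exact pow_le_pow_left₀ h5 h4 2
    nlinarith [sq_nonneg ((A0.card : ℝ) - B0.card)]
  have hmissA : (∑ a ∈ A0, ((B0.filter fun b => ¬ G.Adj a b).card : ℝ)) ≤
      5 / 100000 * (n : ℝ) ^ 2 := by
    have h1 : ∑ a ∈ A0, (B0.filter fun b => ¬ G.Adj a b).card + m = A0.card * B0.card := by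
      rw [hm, ← sum_add_distrib]
      rw [sum_congr rfl (g := fun _ => B0.card) (fun a _ => by
        have := card_filter_add_card_filter_not (s := B0) (fun b => G.Adj a b)
        omega)]
      rw [sum_const, smul_eq_mul]
    have h2 : (∑ a ∈ A0, ((B0.filter fun b => ¬ G.Adj a b).card : ℝ)) + m =
        A0.card * B0.card := by exact_mod_cast h1
    linarith
  have hmissB : (∑ a ∈ B0, ((A0.filter fun b => ¬ G.Adj a b).card : ℝ)) ≤
      5 / 100000 * (n : ℝ) ^ 2 := by
    have h1 : ∑ a ∈ B0, (A0.filter fun b => ¬ G.Adj a b).card + m = B0.card * A0.card := by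
      rw [hm', ← sum_add_distrib]
      rw [sum_congr rfl (g := fun _ => A0.card) (fun a _ => by
        have := card_filter_add_card_filter_not (s := A0) (fun b => G.Adj a b)
        omega)]
      rw [sum_const, smul_eq_mul]
    have h2 : (∑ a ∈ B0, ((A0.filter fun b => ¬ G.Adj a b).card : ℝ)) + m =
        B0.card * A0.card := by exact_mod_cast h1
    linarith [mul_comm (A0.card : ℝ) B0.card]
  -- remove the bad vertices
  set d : ℕ := n / 100 with hd
  have hd1 : (n : ℝ) / 100 ≤ d + 1 := by
    have : n ≤ 100 * (d + 1) := by omega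
    have : (n : ℝ) ≤ 100 * (d + 1) := by exact_mod_cast this
    linarith
  have hd2 : (d : ℝ) ≤ n / 100 := by
    have : 100 * d ≤ n := by omega
    have : (100 : ℝ) * d ≤ n := by exact_mod_cast this
    linarith
  set A := A0.filter fun a => (B0.filter fun b => ¬ G.Adj a b).card ≤ d with hA
  set B := B0.filter fun a => (A0.filter fun b => ¬ G.Adj a b).card ≤ d with hB
  have hnpos : (0 : ℝ) < n := by linarith
  have hbadA : (A0.card : ℝ) ≤ A.card + 5 / 1000 * n := by
    have h1 : A.card + (A0.filter fun a => ¬ (B0.filter fun b => ¬ G.Adj a b).card ≤ d).card =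
        A0.card := card_filter_add_card_filter_not _
    have h2 : ((A0.filter fun a => ¬ (B0.filter fun b => ¬ G.Adj a b).card ≤ d).card : ℝ) *
        (n / 100) ≤ ∑ a ∈ A0, ((B0.filter fun b => ¬ G.Adj a b).card : ℝ) := by
      rw [← nsmul_eq_mul, ← sum_const]
      refine (sum_le_sum (g := fun a => ((B0.filter fun b => ¬ G.Adj a b).card : ℝ)) ?_).trans
        (sum_le_sum_of_subset_of_nonneg (filter_subset _ _) fun _ _ _ => by positivity)
      intro a ha
      rw [mem_filter, not_le] at ha
      have : ((d + 1 : ℕ) : ℝ) ≤ (B0.filter fun b => ¬ G.Adj a b).card := by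
        exact_mod_cast ha.2
      push_cast at this
      linarith
    have h3 : ((A0.filter fun a => ¬ (B0.filter fun b => ¬ G.Adj a b).card ≤ d).card : ℝ) *
        (n / 100) ≤ 5 / 1000 * n * (n / 100) := by
      refine h2.trans (hmissA.trans (le_of_eq (by ring)))
    have h4 := le_of_mul_le_mul_right h3 (by positivity)
    have h5 : (A.card : ℝ) + (A0.filter fun a => ¬ (B0.filter fun b => ¬ G.Adj a b).card ≤ d).card =
        A0.card := by exact_mod_cast h1
    linarith
  have hbadB : (B0.card : ℝ) ≤ B.card + 5 / 1000 * n := by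
    have h1 : B.card + (B0.filter fun a => ¬ (A0.filter fun b => ¬ G.Adj a b).card ≤ d).card =
        B0.card := card_filter_add_card_filter_not _
    have h2 : ((B0.filter fun a => ¬ (A0.filter fun b => ¬ G.Adj a b).card ≤ d).card : ℝ) *
        (n / 100) ≤ ∑ a ∈ B0, ((A0.filter fun b => ¬ G.Adj a b).card : ℝ) := by
      rw [← nsmul_eq_mul, ← sum_const]
      refine (sum_le_sum (g := fun a => ((A0.filter fun b => ¬ G.Adj a b).card : ℝ)) ?_).trans
        (sum_le_sum_of_subset_of_nonneg (filter_subset _ _) fun _ _ _ => by positivity)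
      intro a ha
      rw [mem_filter, not_le] at ha
      have : ((d + 1 : ℕ) : ℝ) ≤ (A0.filter fun b => ¬ G.Adj a b).card := by
        exact_mod_cast ha.2
      push_cast at this
      linarith
    have h3 : ((B0.filter fun a => ¬ (A0.filter fun b => ¬ G.Adj a b).card ≤ d).card : ℝ) *
        (n / 100) ≤ 5 / 1000 * n * (n / 100) := by
      refine h2.trans (hmissB.trans (le_of_eq (by ring)))
    have h4 := le_of_mul_le_mul_right h3 (by positivity)
    have h5 : (B.card : ℝ) + (B0.filter fun a => ¬ (A0.filter fun b => ¬ G.Adj a b).card ≤ d).card =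
        B0.card := by exact_mod_cast h1
    linarith
  have hA0low : (1 / 4 - 5 / 100000) * (n : ℝ) ≤ A0.card := by
    have h1 : (m : ℝ) ≤ A0.card * B0.card := by
      have : m ≤ A0.card * B0.card := by
        rw [hm]
        refine (sum_le_card_nsmul _ _ B0.card fun a _ => card_filter_le _ _).trans
          (by rw [smul_eq_mul])
      exact_mod_cast this
    have h2 : (A0.card : ℝ) * B0.card ≤ A0.card * n :=
      mul_le_mul_of_nonneg_left hB0n (Nat.cast_nonneg A0.card)
    have h3 : (1 / 4 - 5 / 100000) * (n : ℝ) * n ≤ A0.card * n := by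
      have h4 : (1 / 4 - 5 / 100000) * (n : ℝ) * n = (1 / 4 - 5 / 100000) * (n : ℝ) ^ 2 := by ring
      linarith
    exact le_of_mul_le_mul_right h3 hnpos
  have hB0low : (1 / 4 - 5 / 100000) * (n : ℝ) ≤ B0.card := by
    have h1 : (m : ℝ) ≤ A0.card * B0.card := by
      have : m ≤ A0.card * B0.card := by
        rw [hm]
        refine (sum_le_card_nsmul _ _ B0.card fun a _ => card_filter_le _ _).trans
          (by rw [smul_eq_mul])
      exact_mod_cast this
    have h2 : (A0.card : ℝ) * B0.card ≤ n * B0.card :=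
      mul_le_mul_of_nonneg_right hA0n (Nat.cast_nonneg B0.card)
    have h3 : (1 / 4 - 5 / 100000) * (n : ℝ) * n ≤ B0.card * n := by
      have h4 : (1 / 4 - 5 / 100000) * (n : ℝ) * n = (1 / 4 - 5 / 100000) * (n : ℝ) ^ 2 := by ring
      have h5 : (n : ℝ) * B0.card = B0.card * n := mul_comm _ _
      linarith
    exact le_of_mul_le_mul_right h3 hnpos
  have hk1 : ∀ a ∈ A, ∀ b ∈ A, ¬ G.Adj a b := by
    intro a ha b hb
    exact hAi a (mem_filter.1 ha).1 b (mem_filter.1 hb).1
  have hk2 : ∀ b ∈ B, (A.filter fun a => ¬ G.Adj b a).card ≤ d := by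
    intro b hb
    have h1 : (A.filter fun a => ¬ G.Adj b a) ⊆ (A0.filter fun a => ¬ G.Adj b a) := by
      intro z hz
      rw [mem_filter] at hz ⊢
      exact ⟨(mem_filter.1 hz.1).1, hz.2⟩
    exact (card_le_card h1).trans (mem_filter.1 hb).2
  have hk3 : ∀ b ∈ A, (B.filter fun a => ¬ G.Adj b a).card ≤ d := by
    intro b hb
    have h1 : (B.filter fun a => ¬ G.Adj b a) ⊆ (B0.filter fun a => ¬ G.Adj b a) := by
      intro z hz
      rw [mem_filter] at hz ⊢
      exact ⟨(mem_filter.1 hz.1).1, hz.2⟩
    exact (card_le_card h1).trans (mem_filter.1 hb).2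
  have hk4 : 3 * d + 1 < A.card := by
    have h1 : ((3 * d + 1 : ℕ) : ℝ) < (A.card : ℝ) := by
      push_cast
      linarith
    exact Nat.cast_lt.1 h1
  have hk5 : 2 * d + 1 < B.card := by
    have h1 : ((2 * d + 1 : ℕ) : ℝ) < (B.card : ℝ) := by
      push_cast
      linarith
    exact Nat.cast_lt.1 h1
  have hkey := key G A B hk1 d hk2 hk3 hk4 hk5 hcol hcrit
  have hABd : Disjoint A B := hdisj.mono (filter_subset _ _) (filter_subset _ _)
  have hWc : (A.card : ℝ) + B.card + (univ \ (A ∪ B)).card = n := by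
    have h1 : (A ∪ B).card + (univ \ (A ∪ B)).card = n := by
      rw [card_sdiff_of_subset (subset_univ _), card_univ]
      have := card_le_univ (A ∪ B)
      omega
    rw [card_union_of_disjoint hABd] at h1
    exact_mod_cast h1
  have hkey' : (A.card : ℝ) ≤ (univ \ (A ∪ B)).card + d := by exact_mod_cast hkey
  linarith

end Pool.Agent.H27Dense
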